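import Pool.Agent.Y503.RB.Stm

/-!
Three small facts of calculus: second order condition at a local minimum, symmetry of the second
derivative, the function `exp (-2 t)`.
-/

set_option autoImplicit false

namespace Pool.Agent.Y640.RB

open scoped ContDiff RealInnerProductSpace ENNReal Topology
open MeasureTheory Set Filter

/-- Near a point where a map is smooth it is differentiable. -/
theorem evDiff {F : Type*} [NormedAddCommGroup F] [NormedSpace ℝ F] {f : ℂ → F} {z : ℂ}
    (hf : ContDiffAt ℝ ∞ f z) : ∀ᶠ w in 𝓝 z, DifferentiableAt ℝ f w := by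
  have h1 : ContDiffAt ℝ 1 f z := hf.of_le (by exact_mod_cast le_top)
  have h2 : ∀ᶠ w in 𝓝 z, ContDiffAt ℝ 1 f w := h1.eventually (by simp)
  exact h2.mono fun w hw => hw.differentiableAt (by simp)

/-- The derivative of a smooth map is differentiable. -/
theorem diffFderiv {F : Type*} [NormedAddCommGroup F] [NormedSpace ℝ F] {f : ℂ → F} {z : ℂ}
    (hf : ContDiffAt ℝ ∞ f z) : DifferentiableAt ℝ (fderiv ℝ f) z := by
  have h1 : ContDiffAt ℝ 1 (fderiv ℝ f) z :=
    hf.fderiv_right (m := 1) (by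
      have : ((1 : ℕ∞ω) + 1) = ((2 : ℕ∞) : ℕ∞ω) := by norm_num
      rw [this]
      exact_mod_cast (le_top : (2 : ℕ∞) ≤ ⊤))
  exact h1.differentiableAt (by simp)

/-- SYM. -/
theorem sym : Pool.Agent.Y503.RB.St_SYM := by
  intro φ z hφ u v
  have h1 := diffFderiv hφ
  have h2 : ∀ a b : ℂ, Pool.Agent.Y503.RB.d2 φ a b z = fderiv ℝ (fderiv ℝ φ) z a b := by
    intro a b
    have h3 : HasFDerivAt (fun w => fderiv ℝ φ w b)
        ((fderiv ℝ (fderiv ℝ φ) z).flip b) z := by
      have h5 := h1.hasFDerivAt.clm_apply (hasFDerivAt_const b z)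
      have h6 : (fderiv ℝ φ z ∘SL (0 : ℂ →L[ℝ] ℂ) + (fderiv ℝ (fderiv ℝ φ) z).flip b) =
          (fderiv ℝ (fderiv ℝ φ) z).flip b := by simp
      exact h6 ▸ h5
    unfold Pool.Agent.Y503.RB.d2
    rw [h3.fderiv]
    rfl
  rw [h2, h2]
  have h4 : IsSymmSndFDerivAt ℝ φ z := hφ.isSymmSndFDerivAt (by
    simp only [minSmoothness_of_isRCLikeNormedField]
    have h7 : (2 : ℕ∞ω) = ((2 : ℕ∞) : ℕ∞ω) := by norm_num
    rw [h7]
    exact_mod_cast (le_top : (2 : ℕ∞) ≤ ⊤))
  exact h4 u v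

/-- SOC. -/
theorem soc : Pool.Agent.Y503.RB.St_SOC := by
  intro f z hf hmin u
  by_contra hneg
  rw [not_le] at hneg
  have hline : ∀ s : ℝ, HasDerivAt (fun s : ℝ => z + s • u) u s := by
    intro s
    have := ((hasDerivAt_id s).smul_const u).const_add z
    simpa using this
  have hcont : Tendsto (fun s : ℝ => z + s • u) (𝓝 0) (𝓝 z) := by
    have := (hline 0).continuousAt.tendsto
    simpa using this
  set g : ℝ → ℝ := fun s => f (z + s • u) with hg
  have hev : ∀ᶠ s in 𝓝 (0 : ℝ), HasDerivAt g (fderiv ℝ f (z + s • u) u) s := by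
    refine (hcont.eventually (evDiff hf)).mono fun s hs => ?_
    exact hs.hasFDerivAt.comp_hasDerivAt s (hline s)
  have hder : deriv g =ᶠ[𝓝 0] fun s => fderiv ℝ f (z + s • u) u :=
    hev.mono fun s hs => hs.deriv
  have h2 : HasDerivAt (fun s : ℝ => fderiv ℝ f (z + s • u) u)
      (fderiv ℝ (fderiv ℝ f) z u u) 0 := by
    have h3 : HasFDerivAt (fderiv ℝ f) (fderiv ℝ (fderiv ℝ f) z) (z + (0 : ℝ) • u) := by
      simpa using (diffFderiv hf).hasFDerivAt
    have h4 : HasDerivAt (fun s : ℝ => fderiv ℝ f (z + s • u)) (fderiv ℝ (fderiv ℝ f) z u) 0 :=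
      h3.comp_hasDerivAt 0 (hline 0)
    have h5 := h4.clm_apply (hasDerivAt_const (0 : ℝ) u)
    simpa using h5
  have h6 : deriv (deriv g) 0 = fderiv ℝ (fderiv ℝ f) z u u := by
    rw [hder.deriv_eq]
    exact h2.deriv
  have h7 : IsLocalMin g 0 := by
    have h8 : ∀ᶠ w in 𝓝 z, f z ≤ f w := hmin
    have h9 := hcont.eventually h8
    refine h9.mono fun s hs => ?_
    simpa [hg] using hs
  have h10 : deriv g 0 = 0 := h7.deriv_eq_zero
  have h11 : ContinuousAt g 0 := (hev.self_of_nhds).continuousAt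
  have h12 : IsLocalMax g 0 := isLocalMax_of_deriv_deriv_neg (by rw [h6]; exact hneg) h10 h11
  have h13 : g =ᶠ[𝓝 0] fun _ => g 0 := by
    filter_upwards [h7, h12] with s h14 h15
    exact le_antisymm h15 h14
  have h16 : deriv g =ᶠ[𝓝 0] fun _ => (0 : ℝ) := by
    have := h13.deriv
    simpa using this
  have h17 : deriv (deriv g) 0 = 0 := by
    rw [h16.deriv_eq]
    simp
  rw [h6] at h17
  linarith

/-- EXPF. -/
theorem expf : Pool.Agent.Y503.RB.St_EXPF := by
  intro t z ht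
  have hpos : ∀ w, 0 < Real.exp (-t w) ^ 2 := fun w => by positivity
  have hfd : ∀ w, DifferentiableAt ℝ t w →
      HasFDerivAt (fun w => Real.exp (-t w) ^ 2) ((-2 * Real.exp (-t w) ^ 2) • fderiv ℝ t w) w := by
    intro w hw
    have h1 := ((hw.hasFDerivAt.neg).exp).pow 2
    have h2 : (2 • Real.exp (-t w) ^ (2 - 1)) • Real.exp (-t w) • -fderiv ℝ t w =
        (-2 * Real.exp (-t w) ^ 2) • fderiv ℝ t w := by
      rw [smul_neg, smul_neg, smul_smul, ← neg_smul]
      congr 1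
      simp
      ring
    exact h2 ▸ h1
  have hz : DifferentiableAt ℝ t z := (evDiff ht).self_of_nhds
  refine ⟨?_, ?_, ?_⟩
  · rw [(hfd z hz).fderiv, smul_eq_zero]
    have : (-2 * Real.exp (-t z) ^ 2) ≠ 0 := by
      have := hpos z
      intro h
      linarith
    tauto
  · intro h0 u v
    have hev : fderiv ℝ (fun w => Real.exp (-t w) ^ 2) =ᶠ[𝓝 z]
        fun w => (-2 * Real.exp (-t w) ^ 2) • fderiv ℝ t w :=
      (evDiff ht).mono fun w hw => (hfd w hw).fderiv
    have h1 : HasFDerivAt (fun w => -2 * Real.exp (-t w) ^ 2)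
        ((-2 : ℝ) • ((-2 * Real.exp (-t z) ^ 2) • fderiv ℝ t z)) z := (hfd z hz).const_mul (-2)
    have h2 := h1.smul (diffFderiv ht).hasFDerivAt
    rw [hev.fderiv_eq]
    have h3 : fderiv ℝ (fun w => (-2 * Real.exp (-t w) ^ 2) • fderiv ℝ t w) z = _ := h2.fderiv
    rw [h3]
    simp [h0]
  · constructor
    · intro h
      have h1 : ∀ᶠ w in 𝓝 z, Real.exp (-t w) ^ 2 ≤ Real.exp (-t z) ^ 2 := h
      refine h1.mono fun w hw => ?_
      have h2 : Real.exp (-t w) ≤ Real.exp (-t z) :=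
        (pow_le_pow_iff_left₀ (Real.exp_pos _).le (Real.exp_pos _).le two_ne_zero).1 hw
      have h3 := Real.exp_le_exp.1 h2
      linarith
    · intro h
      have h1 : ∀ᶠ w in 𝓝 z, t z ≤ t w := h
      refine h1.mono fun w hw => ?_
      have h2 : Real.exp (-t w) ≤ Real.exp (-t z) := Real.exp_le_exp.2 (by linarith)
      exact pow_le_pow_left₀ (Real.exp_pos _).le h2 2

end Pool.Agent.Y640.RB
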